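import Pool.Agent.helper91.SB.Main
import Pool.Agent.helper91.HX.Robust

/-!
# MP_42173d_gt: tiny inscribed squares in curves enclosing a large area

For every positive real number there is a simple closed 16-gon of diameter at most 7 and perimeter at most 43, the
boundary of a star-shaped domain which contains a disc of radius 1 and has more than half the area of a disc of
the same diameter, with exactly one inscribed square, such that all squares with their vertices in a suitable open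
neighbourhood of the 16-gon are smaller than this number.
-/

set_option autoImplicit false

namespace Pool.Agent.Results.MP_42173d_gt.TinySquareLargeArea

theorem result (ε : ℝ) (hε : 0 < ε) :
    ∃ P : Fin 16 → ℂ, ∃ K : Set ℂ,
      K = (⋃ i : Fin 16, segment ℝ (P i) (P (i + 1))) ∧
      (∃ γ : Circle → ℂ, Continuous γ ∧ Function.Injective γ ∧ Set.range γ = K) ∧
      IsCompact K ∧ IsConnected K ∧ ¬ IsConnected Kᶜ ∧
      Metric.diam K ≤ 7 ∧ ∑ i : Fin 16, ‖P (i + 1) - P i‖ ≤ 43 ∧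
      (∃ c : ℂ, Metric.closedBall c 1 ⊆ connectedComponentIn Kᶜ c ∧
        Bornology.IsBounded (connectedComponentIn Kᶜ c) ∧
        StarConvex ℝ 0 (connectedComponentIn Kᶜ c) ∧
        ENNReal.ofReal (Real.pi / 8 * Metric.diam K ^ 2) <
          MeasureTheory.volume (connectedComponentIn Kᶜ c)) ∧
      (∃ z₀ v₀ : ℂ, v₀ ≠ 0 ∧
        z₀ + v₀ ∈ K ∧ z₀ + Complex.I * v₀ ∈ K ∧ z₀ - v₀ ∈ K ∧ z₀ - Complex.I * v₀ ∈ K ∧
        ∀ z v : ℂ, v ≠ 0 →
          z + v ∈ K → z + Complex.I * v ∈ K → z - v ∈ K → z - Complex.I * v ∈ K →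
          z = z₀ ∧ (v = v₀ ∨ v = Complex.I * v₀ ∨ v = -v₀ ∨ v = -(Complex.I * v₀))) ∧
      ∃ δ : ℝ, 0 < δ ∧ ∀ z v : ℂ,
        z + v ∈ Metric.thickening δ K → z + Complex.I * v ∈ Metric.thickening δ K →
        z - v ∈ Metric.thickening δ K → z - Complex.I * v ∈ Metric.thickening δ K → ‖v‖ < ε := by
  obtain ⟨P, K, hPK, hJ, hc, hcon, hcc, hD, hper, hb, z₀, v₀, hv₀, hε₀, m0, m1, m2, m3, huniq⟩ :=
    Boat.main hε
  refine ⟨P, K, hPK, hJ, hc, hcon, hcc, hD, hper, hb, ⟨z₀, v₀, hv₀, m0, m1, m2, m3, huniq⟩,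
    Hex.robust hc hcon.nonempty ?_⟩
  intro z v h0 h1 h2 h3
  by_cases hv : v = 0
  · rw [hv, norm_zero]; exact hε
  · obtain ⟨-, h | h | h | h⟩ := huniq z v hv h0 h1 h2 h3
    · rw [h]; exact hε₀
    · rw [h, norm_mul, Complex.norm_I, one_mul]; exact hε₀
    · rw [h, norm_neg]; exact hε₀
    · rw [h, norm_neg, norm_mul, Complex.norm_I, one_mul]; exact hε₀

end Pool.Agent.Results.MP_42173d_gt.TinySquareLargeArea
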