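import Pool.Agent.helper91.HX.Final
import Pool.Agent.helper91.HX.Robust

/-!
# MP_42173d_gt: there is no lower bound for the size of inscribed squares

For every positive real number there is a simple closed hexagon around the unit disc such that all squares with
their vertices on the hexagon, and even in an open neighbourhood of it, are smaller than this number.
-/

set_option autoImplicit false

namespace Pool.Agent.Results.MP_42173d_gt.TinySquares

theorem result (ε : ℝ) (hε : 0 < ε) :
    ∃ P : Fin 6 → ℂ, ∃ K : Set ℂ,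
      K = (⋃ i : Fin 6, segment ℝ (P i) (P (i + 1))) ∧
      (∃ γ : Circle → ℂ, Continuous γ ∧ Function.Injective γ ∧ Set.range γ = K) ∧
      IsCompact K ∧ IsConnected K ∧ ¬ IsConnected Kᶜ ∧
      (∃ c : ℂ, Metric.closedBall c 1 ⊆ connectedComponentIn Kᶜ c ∧
        Bornology.IsBounded (connectedComponentIn Kᶜ c)) ∧
      ∃ δ : ℝ, 0 < δ ∧ ∀ z v : ℂ,
        z + v ∈ Metric.thickening δ K → z + Complex.I * v ∈ Metric.thickening δ K →
        z - v ∈ Metric.thickening δ K → z - Complex.I * v ∈ Metric.thickening δ K → ‖v‖ < ε := by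
  obtain ⟨P, K, hPK, hJ, hc, hcon, hcc, hb, hsq⟩ := Hex.main hε
  exact ⟨P, K, hPK, hJ, hc, hcon, hcc, hb, Hex.robust hc hcon.nonempty hsq⟩

end Pool.Agent.Results.MP_42173d_gt.TinySquares
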